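import Pool.Agent.Helper98.KN.G2

/-! G1: no window has more than `q` empty cells; no empty cell near a corner. -/

open MeasureTheory Set Filter Topology
open scoped ENNReal

namespace KN
namespace H98

/-- half-open cell -/
def HC (h : ℝ) (c : ℕ × ℕ) : Set ℂ :=
  Complex.measurableEquivRealProd ⁻¹' (Ico (c.1 * h) ((c.1 + 1) * h) ×ˢ Ico (c.2 * h) ((c.2 + 1) * h))

theorem HC_sub (h : ℝ) (c : ℕ × ℕ) : HC h c ⊆ NCell h c := by
  rw [NCell_eq, box_eq]
  exact preimage_mono (prod_mono Ico_subset_Icc_self Ico_subset_Icc_self)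

theorem HC_meas (h : ℝ) (c : ℕ × ℕ) : MeasurableSet (HC h c) :=
  Complex.measurableEquivRealProd.measurable (measurableSet_Ico.prod measurableSet_Ico)

theorem HC_vol {h : ℝ} (hh : 0 ≤ h) (c : ℕ × ℕ) : volume (HC h c) = ENNReal.ofReal (h ^ 2) := by
  unfold HC
  rw [Complex.volume_preserving_equiv_real_prod.measure_preimage
    (measurableSet_Ico.prod measurableSet_Ico).nullMeasurableSet, Measure.volume_eq_prod,
    Measure.prod_prod, Real.volume_Ico, Real.volume_Ico, ← ENNReal.ofReal_mul (by nlinarith)]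
  congr 1
  ring

theorem nat_eq_of_cell {h t : ℝ} (hh : 0 < h) {a b : ℕ} (h1 : a * h ≤ t) (h2 : t < (a + 1) * h)
    (h3 : b * h ≤ t) (h4 : t < (b + 1) * h) : a = b := by
  have e1 : (a : ℝ) * h < (b + 1) * h := lt_of_le_of_lt h1 h4
  have e2 : (b : ℝ) * h < (a + 1) * h := lt_of_le_of_lt h3 h2
  have e3 : (a : ℝ) < b + 1 := lt_of_mul_lt_mul_right e1 hh.le
  have e4 : (b : ℝ) < a + 1 := lt_of_mul_lt_mul_right e2 hh.le
  have e5 : a < b + 1 := by exact_mod_cast e3
  have e6 : b < a + 1 := by exact_mod_cast e4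
  omega

theorem HC_disj {h : ℝ} (hh : 0 < h) {c c' : ℕ × ℕ} (hne : c ≠ c') :
    Disjoint (HC h c) (HC h c') := by
  rw [Set.disjoint_left]
  rintro z ⟨⟨z1, z2⟩, z3, z4⟩ ⟨⟨w1, w2⟩, w3, w4⟩
  apply hne
  exact Prod.ext (nat_eq_of_cell hh z1 z2 w1 w2) (nat_eq_of_cell hh z3 z4 w3 w4)

theorem cells_vol {h : ℝ} (hh : 0 < h) (T : Finset (ℕ × ℕ)) :
    ENNReal.ofReal (T.card * h ^ 2) ≤ volume (⋃ c ∈ T, NCell h c) := by
  calc ENNReal.ofReal (T.card * h ^ 2) = ∑ c ∈ T, volume (HC h c) := by
        rw [Finset.sum_congr rfl (fun c _ => HC_vol hh.le c), Finset.sum_const, nsmul_eq_mul,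
          ENNReal.ofReal_mul (Nat.cast_nonneg _), ENNReal.ofReal_natCast]
    _ = volume (⋃ c ∈ T, HC h c) := by
        rw [measure_biUnion_finset]
        · intro c _ c' _ hne
          exact HC_disj hh hne
        · intro c _
          exact HC_meas h c
    _ ≤ volume (⋃ c ∈ T, NCell h c) := by
        apply measure_mono
        exact iUnion₂_mono fun c _ => HC_sub h c

theorem void_cells (hB : S_BASIC) (hV : S_VOID) {n h : ℝ} {M : ℕ} (hh : 0 < h)
    (hM : (M : ℝ) * h = Real.sqrt n) (T : Finset (ℕ × ℕ)) (hT : ∀ c ∈ T, c.1 < M ∧ c.2 < M) :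
    prob (Sq n) (fun m x => ∀ c ∈ T, ∀ i : Fin m, x i ∉ NCell h c) ≤
      ENNReal.ofReal (Real.exp (-(T.card * h ^ 2))) := by
  have hZm : MeasurableSet (⋃ c ∈ T, NCell h c) :=
    Finset.measurableSet_biUnion _ fun c _ => NCell_meas h c
  have hZs : (⋃ c ∈ T, NCell h c) ⊆ Sq n :=
    iUnion₂_subset fun c hc => NCell_sub hh.le hM (hT c hc).1 (hT c hc).2
  have hfin : volume (⋃ c ∈ T, NCell h c) ≠ ⊤ := measure_ne_top_of_subset hZs (Sq_vol n)
  have h1 := hV (Sq n) (⋃ c ∈ T, NCell h c) (Sq_meas n) hZm hZs (Sq_vol n) (fun _ => True)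
    (fun m => by simp)
  have h2 : PP (Sq n \ ⋃ c ∈ T, NCell h c) (fun _ => True) = 1 :=
    hB.2.2.2.1 _ (measure_ne_top_of_subset sdiff_subset (Sq_vol n))
  rw [h2, mul_one] at h1
  calc prob (Sq n) (fun m x => ∀ c ∈ T, ∀ i : Fin m, x i ∉ NCell h c)
      ≤ PP (Sq n) (fun ω => cnt (⋃ c ∈ T, NCell h c) ω = 0 ∧ True) := by
        refine hB.1 _ _ _ (Sq_meas n) ?_
        intro m x hx hQ
        refine ⟨cnt_eq_zero.2 ?_, trivial⟩
        intro z hz hmem
        obtain ⟨i, rfl⟩ := mem_conf.1 hz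
        obtain ⟨c, hc, hmem⟩ := mem_iUnion₂.1 hmem
        exact hQ c hc i hmem
    _ = ENNReal.ofReal (Real.exp (-(volume (⋃ c ∈ T, NCell h c)).toReal)) := h1
    _ ≤ ENNReal.ofReal (Real.exp (-(T.card * h ^ 2))) := by
        apply ENNReal.ofReal_le_ofReal
        apply Real.exp_le_exp.2
        have h3 := ENNReal.toReal_mono hfin (cells_vol hh T)
        rw [ENNReal.toReal_ofReal (by positivity)] at h3
        linarith

theorem hc_sq {e n : ℝ} (he : 0 < e) (hn : 1 ≤ n) (h : e * lam n / 2 ≤ KN.hc e n) :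
    e ^ 2 / 4 * Real.log n ≤ KN.hc e n ^ 2 := by
  have h0 : 0 ≤ lam n := Real.sqrt_nonneg _
  calc e ^ 2 / 4 * Real.log n = (e * lam n / 2) ^ 2 := by
        rw [div_pow, mul_pow, lam_sq hn]; ring
    _ ≤ KN.hc e n ^ 2 := by
        have : 0 ≤ e * lam n / 2 := by positivity
        gcongr

/-- corner cells are in the first or the last rows/columns -/
theorem corner_one {h s t y J e l : ℝ} {M c : ℕ} (hh : 0 < h) (hM : (M : ℝ) * h = s) (hl : 0 ≤ J)
    (he : 0 < e) (hle : e * l / 2 ≤ h) (hc : c < M) (h1 : c * h ≤ t) (h2 : t ≤ (c + 1) * h)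
    (hy : y = 0 ∨ y = s) (hd : |t - y| ≤ J * l) :
    c ∈ Finset.range (⌈2 * J / e⌉₊ + 1) ∪
      (Finset.range (⌈2 * J / e⌉₊ + 1)).image (fun i => M - 1 - i) := by
  have hd' := abs_le.1 hd
  have hJ : J * l ≤ 2 * J / e * h := by
    calc J * l = 2 * J / e * (e * l / 2) := by field_simp
      _ ≤ 2 * J / e * h := by gcongr
  rcases hy with rfl | rfl
  · apply Finset.mem_union_left
    rw [Finset.mem_range, Nat.lt_succ_iff]
    have h3 : (c : ℝ) * h ≤ 2 * J / e * h := by linarith [hd'.2]
    have h4 : (c : ℝ) ≤ 2 * J / e := le_of_mul_le_mul_right h3 hh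
    exact_mod_cast h4.trans (Nat.le_ceil _)
  · apply Finset.mem_union_right
    rw [Finset.mem_image]
    refine ⟨M - 1 - c, ?_, by omega⟩
    rw [Finset.mem_range, Nat.lt_succ_iff]
    have h5 : ((M - 1 - c : ℕ) : ℝ) = (M : ℝ) - (c + 1) := by
      have : M - 1 - c = M - (c + 1) := by omega
      rw [this, Nat.cast_sub (by omega)]
      push_cast
      ring
    have h3 : ((M - 1 - c : ℕ) : ℝ) * h ≤ 2 * J / e * h := by
      rw [h5, sub_mul, hM]
      linarith [hd'.1]
    have h4 : ((M - 1 - c : ℕ) : ℝ) ≤ 2 * J / e := le_of_mul_le_mul_right h3 hh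
    exact_mod_cast h4.trans (Nat.le_ceil _)

end H98

open H98

theorem g1_thm (hB : S_BASIC) (hV : S_VOID) : S_G1 := by
  classical
  intro e he
  obtain ⟨q, hq⟩ := exists_nat_gt (8 / e ^ 2)
  have hq2 : 2 ≤ ((q : ℝ) + 1) * (e ^ 2 / 4) := by
    rw [div_lt_iff₀ (by positivity)] at hq
    nlinarith [sq_nonneg e]
  refine ⟨q, fun M' => ?_, fun J => ?_⟩
  · refine union_tendsto hB (ι := Finset (ℕ × ℕ)) _
      (fun n => ((Finset.range (mc e n) ×ˢ Finset.range (mc e n)).biUnion
        (fun p => (WinCells M' p.1 p.2).powersetCard (q + 1))).filter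
          (fun T => ∀ c ∈ T, c.1 < mc e n ∧ c.2 < mc e n))
      (fun n T m x => ∀ c ∈ T, ∀ i : Fin m, x i ∉ NCell (KN.hc e n) c)
      (fun n => 1 / n ^ 2) (fun n => 4 * 2 ^ (M' * M') / n) ?_ ?_ ?_ (tendsto_const_div _)
    · filter_upwards with n m x hx
      rintro ⟨a, b, ha, hb, hlt⟩
      have hfin : {c : ℕ × ℕ | c ∈ WinCells M' a b ∧
          ∀ i : Fin m, x i ∉ NCell (KN.hc e n) c}.Finite :=
        (Finset.finite_toSet (WinCells M' a b)).subset fun c hc => hc.1
      rw [Set.ncard_eq_toFinset_card _ hfin] at hlt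
      obtain ⟨T, hT1, hT2⟩ := Finset.exists_subset_card_eq (Nat.succ_le_of_lt hlt)
      have hT3 : ∀ c ∈ T, c ∈ WinCells M' a b ∧ ∀ i : Fin m, x i ∉ NCell (KN.hc e n) c := by
        intro c hc
        exact hfin.mem_toFinset.1 (hT1 hc)
      have hTne : T.Nonempty := by
        rw [← Finset.card_pos, hT2]
        omega
      obtain ⟨c₀, hc₀⟩ := hTne
      have hc₁ := (hT3 c₀ hc₀).1
      simp only [WinCells, Finset.mem_product, Finset.mem_Ico] at hc₁
      refine ⟨T, ?_, fun c hc => (hT3 c hc).2⟩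
      rw [Finset.mem_filter, Finset.mem_biUnion]
      refine ⟨⟨(a, b), ?_, ?_⟩, ?_⟩
      · simp only [Finset.mem_product, Finset.mem_range]
        omega
      · rw [Finset.mem_powersetCard]
        exact ⟨fun c hc => (hT3 c hc).1, hT2⟩
      · intro c hc
        have hc2 := (hT3 c hc).1
        simp only [WinCells, Finset.mem_product, Finset.mem_Ico] at hc2
        omega
    · filter_upwards [mc_facts e he] with n hn T hT
      obtain ⟨hn1, hn2, hn3, hn4, hn5, hn6, hn7⟩ := hn
      rw [Finset.mem_filter, Finset.mem_biUnion] at hT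
      obtain ⟨⟨p, hp, hT2⟩, hT3⟩ := hT
      rw [Finset.mem_powersetCard] at hT2
      refine (void_cells hB hV hn2 hn3 T hT3).trans ?_
      apply ENNReal.ofReal_le_ofReal
      rw [hT2.2]
      have h1 := hc_sq he hn7 hn4
      have hL := Real.log_nonneg hn7
      have h2 : 2 * Real.log n ≤ ((q + 1 : ℕ) : ℝ) * KN.hc e n ^ 2 := by
        push_cast
        calc 2 * Real.log n ≤ (((q : ℝ) + 1) * (e ^ 2 / 4)) * Real.log n := by gcongr
          _ = ((q : ℝ) + 1) * (e ^ 2 / 4 * Real.log n) := by ring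
          _ ≤ ((q : ℝ) + 1) * KN.hc e n ^ 2 := by gcongr
      calc Real.exp (-(((q + 1 : ℕ) : ℝ) * KN.hc e n ^ 2)) ≤ Real.exp (-(2 * Real.log n)) := by
            apply Real.exp_le_exp.2
            linarith
        _ = 1 / n ^ 2 := by
            rw [Real.exp_neg]
            have : 2 * Real.log n = Real.log (n ^ 2) := by
              rw [Real.log_pow]
              norm_num
            rw [this, Real.exp_log (by positivity), one_div]
    · filter_upwards [mc_facts e he] with n hn
      obtain ⟨hn1, hn2, hn3, hn4, hn5, hn6, hn7⟩ := hn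
      have hn0 : 0 < n := by linarith
      have hcard : ((((Finset.range (mc e n) ×ˢ Finset.range (mc e n)).biUnion
        (fun p => (WinCells M' p.1 p.2).powersetCard (q + 1))).filter
          (fun T => ∀ c ∈ T, c.1 < mc e n ∧ c.2 < mc e n)).card : ℝ) ≤
          (mc e n : ℝ) ^ 2 * 2 ^ (M' * M') := by
        have h1 : (((Finset.range (mc e n) ×ˢ Finset.range (mc e n)).biUnion
            (fun p => (WinCells M' p.1 p.2).powersetCard (q + 1))).filter
            (fun T => ∀ c ∈ T, c.1 < mc e n ∧ c.2 < mc e n)).card ≤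
            mc e n * mc e n * 2 ^ (M' * M') := by
          refine (Finset.card_filter_le _ _).trans (Finset.card_biUnion_le.trans ?_)
          calc ∑ p ∈ Finset.range (mc e n) ×ˢ Finset.range (mc e n),
                ((WinCells M' p.1 p.2).powersetCard (q + 1)).card
              ≤ ∑ p ∈ Finset.range (mc e n) ×ˢ Finset.range (mc e n), 2 ^ (M' * M') := by
                apply Finset.sum_le_sum
                intro p _
                rw [Finset.card_powersetCard]
                have h2 : (WinCells M' p.1 p.2).card = M' * M' := by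
                  simp [WinCells]
                rw [h2]
                exact Nat.choose_le_two_pow _ _
            _ = mc e n * mc e n * 2 ^ (M' * M') := by
                rw [Finset.sum_const, Finset.card_product, Finset.card_range, smul_eq_mul]
        have h3 : ((mc e n * mc e n * 2 ^ (M' * M') : ℕ) : ℝ) =
            (mc e n : ℝ) ^ 2 * 2 ^ (M' * M') := by
          push_cast
          ring
        rw [← h3]
        exact_mod_cast h1
      rw [le_div_iff₀ hn0]
      calc ((((Finset.range (mc e n) ×ˢ Finset.range (mc e n)).biUnion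
        (fun p => (WinCells M' p.1 p.2).powersetCard (q + 1))).filter
          (fun T => ∀ c ∈ T, c.1 < mc e n ∧ c.2 < mc e n)).card : ℝ) * (1 / n ^ 2) * n
          ≤ ((mc e n : ℝ) ^ 2 * 2 ^ (M' * M')) * (1 / n ^ 2) * n := by gcongr
        _ ≤ (4 * n * 2 ^ (M' * M')) * (1 / n ^ 2) * n := by gcongr
        _ = 4 * 2 ^ (M' * M') := by field_simp
  · set K := ⌈2 * J / e⌉₊ with hK
    have hlim : Tendsto (fun n : ℝ => ((2 * (K + 1)) ^ 2 : ℝ) *
        Real.exp (-(e ^ 2 / 4 * Real.log n))) atTop (𝓝 0) := by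
      have h1 : Tendsto (fun n : ℝ => e ^ 2 / 4 * Real.log n) atTop atTop :=
        Real.tendsto_log_atTop.const_mul_atTop (by positivity)
      have h2 := (Real.tendsto_exp_neg_atTop_nhds_zero.comp h1).const_mul ((2 * (K + 1)) ^ 2 : ℝ)
      simpa using h2
    refine union_tendsto hB (ι := ℕ × ℕ) _
      (fun n => ((Finset.range (K + 1) ∪ (Finset.range (K + 1)).image (fun i => mc e n - 1 - i)) ×ˢ
        (Finset.range (K + 1) ∪ (Finset.range (K + 1)).image (fun i => mc e n - 1 - i))).filter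
          (fun c => c.1 < mc e n ∧ c.2 < mc e n))
      (fun n c m x => ∀ i : Fin m, x i ∉ NCell (KN.hc e n) c)
      (fun n => Real.exp (-(e ^ 2 / 4 * Real.log n)))
      (fun n => ((2 * (K + 1)) ^ 2 : ℝ) * Real.exp (-(e ^ 2 / 4 * Real.log n))) ?_ ?_ ?_ hlim
    · filter_upwards [mc_facts e he, lam_ge 1 one_pos 1] with n hn hlam m x hx
      obtain ⟨hn1, hn2, hn3, hn4, hn5, hn6, hn7⟩ := hn
      rintro ⟨c, hc1, hc2, hemp, z, hz, w, hw, hd⟩
      refine ⟨c, ?_, hemp⟩
      have hJ : 0 ≤ J := by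
        have h1 : 0 ≤ J * lam n := dist_nonneg.trans hd
        rw [one_mul] at hlam
        by_contra hneg
        push Not at hneg
        nlinarith
      rw [NCell_eq] at hz
      obtain ⟨z1, z2, z3, z4⟩ := hz
      have g1 : |z.re - w.re| ≤ dist z w := by
        rw [dist_eq_norm, ← Complex.sub_re]
        exact Complex.abs_re_le_norm _
      have g2 : |z.im - w.im| ≤ dist z w := by
        rw [dist_eq_norm, ← Complex.sub_im]
        exact Complex.abs_im_le_norm _
      have hwr : (w.re = 0 ∨ w.re = Real.sqrt n) ∧ (w.im = 0 ∨ w.im = Real.sqrt n) := by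
        simp only [corners, mem_insert_iff, mem_singleton_iff] at hw
        rcases hw with rfl | rfl | rfl | rfl <;> simp
      rw [Finset.mem_filter, Finset.mem_product]
      refine ⟨⟨?_, ?_⟩, hc1, hc2⟩
      · exact corner_one hn2 hn3 hJ he hn4 hc1 z1 z2 hwr.1 (g1.trans hd)
      · exact corner_one hn2 hn3 hJ he hn4 hc2 z3 z4 hwr.2 (g2.trans hd)
    · filter_upwards [mc_facts e he] with n hn c hc
      obtain ⟨hn1, hn2, hn3, hn4, hn5, hn6, hn7⟩ := hn
      rw [Finset.mem_filter] at hc
      have h1 := void_cells hB hV hn2 hn3 {c} (by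
        intro c' hc'
        rw [Finset.mem_singleton] at hc'
        rw [hc']
        exact hc.2)
      have h2 : prob (Sq n) (fun m x => ∀ c' ∈ ({c} : Finset (ℕ × ℕ)),
          ∀ i : Fin m, x i ∉ NCell (KN.hc e n) c') =
          prob (Sq n) (fun m x => ∀ i : Fin m, x i ∉ NCell (KN.hc e n) c) := by
        congr 1
        funext m x
        simp
      rw [h2] at h1
      refine h1.trans ?_
      apply ENNReal.ofReal_le_ofReal
      apply Real.exp_le_exp.2
      have h3 := hc_sq he hn7 hn4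
      simp only [Finset.card_singleton, Nat.cast_one, one_mul]
      linarith
    · filter_upwards with n
      have hR : (Finset.range (K + 1) ∪
          (Finset.range (K + 1)).image (fun i => mc e n - 1 - i)).card ≤ 2 * (K + 1) := by
        refine (Finset.card_union_le _ _).trans ?_
        have h1 : ((Finset.range (K + 1)).image (fun i => mc e n - 1 - i)).card ≤ K + 1 :=
          Finset.card_image_le.trans (by rw [Finset.card_range])
        rw [Finset.card_range]
        omega
      have hcard : ((((Finset.range (K + 1) ∪ (Finset.range (K + 1)).image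
          (fun i => mc e n - 1 - i)) ×ˢ (Finset.range (K + 1) ∪
          (Finset.range (K + 1)).image (fun i => mc e n - 1 - i))).filter
          (fun c => c.1 < mc e n ∧ c.2 < mc e n)).card : ℝ) ≤ (2 * (K + 1)) ^ 2 := by
        have h1 := (Finset.card_filter_le ((Finset.range (K + 1) ∪
          (Finset.range (K + 1)).image (fun i => mc e n - 1 - i)) ×ˢ (Finset.range (K + 1) ∪
          (Finset.range (K + 1)).image (fun i => mc e n - 1 - i)))
          (fun c => c.1 < mc e n ∧ c.2 < mc e n))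
        rw [Finset.card_product] at h1
        have h1 := h1.trans (Nat.mul_le_mul hR hR)
        have h2 : (((2 * (K + 1)) * (2 * (K + 1)) : ℕ) : ℝ) = (2 * ((K : ℝ) + 1)) ^ 2 := by
          push_cast
          ring
        rw [← h2]
        exact_mod_cast h1
      exact mul_le_mul_of_nonneg_right hcard (Real.exp_pos _).le

end KN
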