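import Pool.Agent.Helper98.KN.Grid

/-! G2: every large ball contains many points; G0: no small ball contains many points. -/

open MeasureTheory Set Filter Topology
open scoped ENNReal

namespace KN
open H98

theorem H98.kn_le {c n : ℝ} (hc : 0 < c) (hn : 1 ≤ n) : (kn c n : ℝ) ≤ c * Real.log n :=
  Nat.floor_le (mul_nonneg hc.le (Real.log_nonneg hn))

theorem H98.kn_gt (c n : ℝ) : c * Real.log n < (kn c n : ℝ) + 1 := Nat.lt_floor_add_one _

theorem g2_thm (hB : S_BASIC) (hD : S_CHD) : S_G2 := by
  intro c hc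
  obtain ⟨e, hepos, hesq⟩ : ∃ e : ℝ, 0 < e ∧ e ^ 2 = 8 * (c + 2) :=
    ⟨Real.sqrt (8 * (c + 2)), by positivity, Real.sq_sqrt (by positivity)⟩
  have key : Tendsto (fun n => prob (Sq n) (fun m x => ∃ z ∈ Sq n,
      {l : Fin m | dist (x l) z < 2 * e * lam n}.ncard < kn c n + 2)) atTop (𝓝 0) := by
    refine union_tendsto hB (ι := ℕ × ℕ) _
      (fun n => Finset.range (mc e n) ×ˢ Finset.range (mc e n))
      (fun n p m x => cnt (NCell (KN.hc e n) p) (conf x) ≤ kn c n + 1)
      (fun n => 2 / n ^ 2) (fun n => 8 / n) ?_ ?_ ?_ (tendsto_const_div 8)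
    · filter_upwards [mc_facts e hepos] with n hn m x hx
      rintro ⟨z, hz, hlt⟩
      obtain ⟨p, hp1, hp2, hzp⟩ := exists_cell hn.2.1 hn.1 hn.2.2.1 hz
      refine ⟨p, by simp [hp1, hp2], ?_⟩
      have h1 : cnt (NCell (KN.hc e n) p) (conf x) ≤
          {l : Fin m | dist (x l) z < 2 * e * lam n}.ncard := by
        rw [cnt_conf_eq_ncard]
        apply Set.ncard_le_ncard _ (Set.toFinite _)
        intro l hl
        have h2 := NCell_dist hn.2.1 hl hzp
        have h3 := hn.2.2.2.2.1
        change dist (x l) z < 2 * e * lam n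
        nlinarith
      omega
    · filter_upwards [mc_facts e hepos] with n hn p hp
      obtain ⟨hn1, hn2, hn3, hn4, hn5, hn6, hn7⟩ := hn
      simp only [Finset.mem_product, Finset.mem_range] at hp
      have hL := Real.log_nonneg hn7
      refine (hD (Sq n) (NCell (KN.hc e n) p) (KN.hc e n ^ 2) (kn c n + 1) (Sq_meas n)
        (NCell_meas _ _) (NCell_sub hn2.le hn3 hp.1 hp.2) (Sq_vol n) (by positivity)
        (NCell_vol hn2.le p).ge).trans ?_
      apply ENNReal.ofReal_le_ofReal
      have h1 : (2 : ℝ) ^ (kn c n + 1) ≤ 2 * Real.exp (c * Real.log n) := by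
        rw [pow_succ, mul_comm]
        apply mul_le_mul_of_nonneg_left _ (by norm_num)
        calc (2 : ℝ) ^ (kn c n) ≤ (Real.exp 1) ^ (kn c n) := by
              gcongr
              have := Real.add_one_le_exp (1 : ℝ)
              linarith
          _ = Real.exp (kn c n) := by rw [← Real.exp_nat_mul]; simp
          _ ≤ Real.exp (c * Real.log n) := Real.exp_le_exp.2 (kn_le hc hn7)
      have h2 : (c + 2) * Real.log n ≤ KN.hc e n ^ 2 / 2 := by
        have h3 : (e * lam n / 2) ^ 2 ≤ KN.hc e n ^ 2 := by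
          have : 0 ≤ e * lam n / 2 := by
            have := Real.sqrt_nonneg (Real.log n)
            unfold lam
            positivity
          gcongr
        have h4 : (e * lam n / 2) ^ 2 = 2 * ((c + 2) * Real.log n) := by
          rw [div_pow, mul_pow, hesq, lam_sq hn7]
          ring
        linarith
      calc (2 : ℝ) ^ (kn c n + 1) * Real.exp (-(KN.hc e n ^ 2 / 2))
          ≤ (2 * Real.exp (c * Real.log n)) * Real.exp (-((c + 2) * Real.log n)) := by
            gcongr
        _ = 2 * Real.exp (-(2 * Real.log n)) := by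
            rw [mul_assoc, ← Real.exp_add]
            congr 2
            ring
        _ = 2 / n ^ 2 := by
            rw [Real.exp_neg]
            have : 2 * Real.log n = Real.log (n ^ 2) := by
              rw [Real.log_pow]
              norm_num
            rw [this, Real.exp_log (by positivity)]
            rfl
    · filter_upwards [mc_facts e hepos] with n hn
      obtain ⟨hn1, hn2, hn3, hn4, hn5, hn6, hn7⟩ := hn
      rw [Finset.card_product, Finset.card_range]
      push_cast
      have hn0 : 0 < n := by linarith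
      rw [le_div_iff₀ hn0]
      calc (mc e n : ℝ) * (mc e n) * (2 / n ^ 2) * n = (mc e n : ℝ) ^ 2 * (2 / n) := by
            field_simp
        _ ≤ 4 * n * (2 / n) := by gcongr
        _ = 8 := by field_simp; norm_num
  refine ⟨2 * e, by positivity, ?_, key⟩
  refine tendsto_of_tendsto_of_tendsto_of_le_of_le' tendsto_const_nhds key
    (Eventually.of_forall fun n => zero_le) ?_
  filter_upwards [lam_ge (2 * e) (by positivity) 1] with n hn
  refine hB.1 _ _ _ (Sq_meas n) ?_
  rintro m x hx ⟨i, hi⟩
  refine ⟨x i, hx i, ?_⟩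
  have h1 : {l : Fin m | dist (x l) (x i) < 2 * e * lam n} ⊆
      insert i {l : Fin m | l ≠ i ∧ dist (x l) (x i) < 2 * e * lam n} := by
    intro l hl
    by_cases hli : l = i
    · left; exact hli
    · right; exact ⟨hli, hl⟩
  have h2 := (Set.ncard_le_ncard h1 (Set.toFinite _)).trans (Set.ncard_insert_le _ _)
  omega

theorem g0_thm (hB : S_BASIC) (hU : S_CHU) : S_G0 := by
  intro c hc
  set z := Real.exp (3 / c) with hz
  have hz1 : 1 ≤ z := Real.one_le_exp (by positivity)
  obtain ⟨a, hapos, hasq⟩ : ∃ a : ℝ, 0 < a ∧ 9 * a ^ 2 * (z - 1) ≤ 1 := by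
    refine ⟨1 / (3 * Real.sqrt z), by positivity, ?_⟩
    rw [div_pow, mul_pow, Real.sq_sqrt (by positivity)]
    have : 9 * (1 ^ 2 / (3 ^ 2 * z)) * (z - 1) = (z - 1) / z := by field_simp; ring
    rw [this, div_le_one (by positivity)]
    linarith
  refine ⟨a, hapos, ?_⟩
  refine union_tendsto hB (ι := ℤ × ℤ) _ (fun n => gridI n (a * lam n))
    (fun n p m x => kn c n ≤ cnt (Box ((p.1 - 1) * (a * lam n)) ((p.1 + 2) * (a * lam n))
      ((p.2 - 1) * (a * lam n)) ((p.2 + 2) * (a * lam n)) ∩ Sq n) (conf x))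
    (fun n => z / n ^ 2) (fun n => 4 * z / n) ?_ ?_ ?_ (tendsto_const_div _)
  · filter_upwards [lam_ge a hapos 1] with n hn m x hx
    rintro ⟨i, hi⟩
    set ε := a * lam n with hε
    have hεp : 0 < ε := by linarith
    refine ⟨(⌊(x i).re / ε⌋, ⌊(x i).im / ε⌋), ?_, ?_⟩
    · obtain ⟨y1, y2, y3, y4⟩ := hx i
      simp only [gridI, Finset.mem_product, Finset.mem_Icc]
      refine ⟨⟨?_, ?_⟩, ?_, ?_⟩
      · exact Int.floor_nonneg.2 (by positivity)
      · exact Int.floor_le_floor (by gcongr)
      · exact Int.floor_nonneg.2 (by positivity)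
      · exact Int.floor_le_floor (by gcongr)
    · refine hi.trans ?_
      rw [cnt_conf_eq_ncard]
      apply Set.ncard_le_ncard _ (Set.toFinite _)
      rintro l ⟨-, hl⟩
      refine ⟨?_, hx l⟩
      have f1 := Int.floor_le ((x i).re / ε)
      have f2 := Int.lt_floor_add_one ((x i).re / ε)
      have f3 := Int.floor_le ((x i).im / ε)
      have f4 := Int.lt_floor_add_one ((x i).im / ε)
      rw [le_div_iff₀ hεp] at f1 f3
      rw [div_lt_iff₀ hεp] at f2 f4
      have g1 : |(x l).re - (x i).re| ≤ dist (x l) (x i) := by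
        rw [dist_eq_norm, ← Complex.sub_re]
        exact Complex.abs_re_le_norm _
      have g2 : |(x l).im - (x i).im| ≤ dist (x l) (x i) := by
        rw [dist_eq_norm, ← Complex.sub_im]
        exact Complex.abs_im_le_norm _
      have g3 := abs_le.1 (g1.trans hl.le)
      have g4 := abs_le.1 (g2.trans hl.le)
      refine ⟨?_, ?_, ?_, ?_⟩
      · linarith [g3.1]
      · linarith [g3.2]
      · linarith [g4.1]
      · linarith [g4.2]
  · filter_upwards [lam_ge a hapos 1, eventually_ge_atTop (1 : ℝ)] with n hn hn1 p hp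
    set ε := a * lam n with hε
    have hεp : 0 < ε := by linarith
    have hL := Real.log_nonneg hn1
    refine (hU (Sq n) _ (9 * ε ^ 2) z (kn c n) (Sq_meas n)
      ((box_meas _ _ _ _).inter (Sq_meas n)) inter_subset_right (Sq_vol n) (by positivity) hz1
      ?_).trans ?_
    · refine (measure_mono inter_subset_left).trans ?_
      rw [box_vol (by nlinarith)]
      apply ENNReal.ofReal_le_ofReal
      apply le_of_eq
      ring
    · apply ENNReal.ofReal_le_ofReal
      have hzk : n ^ 3 / z ≤ z ^ (kn c n) := by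
        have h1 : n ^ 3 / z = Real.exp (3 * Real.log n - 3 / c) := by
          rw [Real.exp_sub]
          have : 3 * Real.log n = Real.log (n ^ 3) := by
            rw [Real.log_pow]
            norm_num
          rw [this, Real.exp_log (by positivity)]
        rw [h1, hz, ← Real.exp_nat_mul]
        apply Real.exp_le_exp.2
        have h2 := kn_gt c n
        have h3 : (c * Real.log n - 1) * (3 / c) ≤ (kn c n : ℝ) * (3 / c) := by
          gcongr
          linarith
        have h4 : (c * Real.log n - 1) * (3 / c) = 3 * Real.log n - 3 / c := by field_simp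
        linarith
      have hex : Real.exp (9 * ε ^ 2 * (z - 1)) ≤ n := by
        have h1 : 9 * ε ^ 2 * (z - 1) ≤ Real.log n := by
          rw [hε, mul_pow, lam_sq hn1]
          have : 9 * (a ^ 2 * Real.log n) * (z - 1) = (9 * a ^ 2 * (z - 1)) * Real.log n := by ring
          rw [this]
          nlinarith
        calc Real.exp (9 * ε ^ 2 * (z - 1)) ≤ Real.exp (Real.log n) := Real.exp_le_exp.2 h1
          _ = n := Real.exp_log (by linarith)
      calc Real.exp (9 * ε ^ 2 * (z - 1)) / z ^ (kn c n) ≤ n / (n ^ 3 / z) := by gcongr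
        _ = z / n ^ 2 := by field_simp
  · filter_upwards [lam_ge a hapos 1, eventually_ge_atTop (1 : ℝ)] with n hn hn1
    set ε := a * lam n with hε
    have hεp : 0 < ε := by linarith
    have hn0 : 0 < n := by linarith
    have hs : 1 ≤ Real.sqrt n := Real.one_le_sqrt.2 hn1
    have hfl : (0 : ℤ) ≤ ⌊Real.sqrt n / ε⌋ := Int.floor_nonneg.2 (by positivity)
    have hcard : ((Finset.Icc (0 : ℤ) ⌊Real.sqrt n / ε⌋).card : ℝ) ≤ 2 * Real.sqrt n := by
      rw [Int.card_Icc, sub_zero]
      have h1 : (((⌊Real.sqrt n / ε⌋ + 1).toNat : ℕ) : ℝ) = (⌊Real.sqrt n / ε⌋ : ℝ) + 1 := by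
        have : (((⌊Real.sqrt n / ε⌋ + 1).toNat : ℕ) : ℤ) = ⌊Real.sqrt n / ε⌋ + 1 :=
          Int.toNat_of_nonneg (by omega)
        exact_mod_cast this
      rw [h1]
      have h2 := Int.floor_le (Real.sqrt n / ε)
      have h3 : Real.sqrt n / ε ≤ Real.sqrt n := div_le_self (by positivity) hn
      linarith
    unfold gridI
    rw [Finset.card_product]
    push_cast
    rw [le_div_iff₀ hn0]
    calc ((Finset.Icc (0 : ℤ) ⌊Real.sqrt n / ε⌋).card : ℝ) *
          ((Finset.Icc (0 : ℤ) ⌊Real.sqrt n / ε⌋).card : ℝ) * (z / n ^ 2) * n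
        ≤ (2 * Real.sqrt n) * (2 * Real.sqrt n) * (z / n ^ 2) * n := by gcongr
      _ = 4 * (Real.sqrt n) ^ 2 * (z / n) := by field_simp; norm_num
      _ = 4 * z := by rw [Real.sq_sqrt hn0.le]; field_simp

end KN
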