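import Pool.Agent.Helper89.KN.Spec
import Pool.Agent.Helper89.KN.Base

/-! Grid lemmas and union bounds for G0, G1, G2. -/

open MeasureTheory Set Filter Topology
open scoped ENNReal

namespace KN
namespace H98

theorem box_eq (xl xr yb yt : ℝ) : Box xl xr yb yt =
    Complex.measurableEquivRealProd ⁻¹' (Icc xl xr ×ˢ Icc yb yt) := by
  ext z
  simp only [Box, mem_ofPred_eq, mem_preimage, mem_prod, mem_Icc,
    Complex.measurableEquivRealProd_apply]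
  tauto

theorem box_vol {xl xr yb yt : ℝ} (hx : xl ≤ xr) :
    volume (Box xl xr yb yt) = ENNReal.ofReal ((xr - xl) * (yt - yb)) := by
  rw [box_eq, Complex.volume_preserving_equiv_real_prod.measure_preimage
    (measurableSet_Icc.prod measurableSet_Icc).nullMeasurableSet, Measure.volume_eq_prod,
    Measure.prod_prod, Real.volume_Icc, Real.volume_Icc, ← ENNReal.ofReal_mul (by linarith)]

theorem box_meas (xl xr yb yt : ℝ) : MeasurableSet (Box xl xr yb yt) := by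
  rw [box_eq]
  exact Complex.measurableEquivRealProd.measurable (measurableSet_Icc.prod measurableSet_Icc)

theorem Sq_eq (n : ℝ) : Sq n = Box 0 (Real.sqrt n) 0 (Real.sqrt n) := rfl

theorem Sq_meas (n : ℝ) : MeasurableSet (Sq n) := by
  rw [Sq_eq]; exact box_meas _ _ _ _

theorem Sq_vol (n : ℝ) : volume (Sq n) ≠ ⊤ := by
  rw [Sq_eq, box_vol (Real.sqrt_nonneg n)]
  exact ENNReal.ofReal_ne_top

/-- generic union bound with limit -/
theorem union_tendsto (hB : S_BASIC) {ι : Type} (E : ℝ → ∀ m : ℕ, (Fin m → ℂ) → Prop)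
    (I : ℝ → Finset ι) (Q : ℝ → ι → ∀ m : ℕ, (Fin m → ℂ) → Prop) (f g : ℝ → ℝ)
    (h1 : ∀ᶠ n in atTop, ∀ (m : ℕ) (x : Fin m → ℂ), (∀ i, x i ∈ Sq n) → E n m x →
      ∃ i ∈ I n, Q n i m x)
    (h2 : ∀ᶠ n in atTop, ∀ i ∈ I n, prob (Sq n) (Q n i) ≤ ENNReal.ofReal (f n))
    (h3 : ∀ᶠ n in atTop, ((I n).card : ℝ) * f n ≤ g n) (h4 : Tendsto g atTop (𝓝 0)) :
    Tendsto (fun n => prob (Sq n) (E n)) atTop (𝓝 0) := by
  obtain ⟨b1, b2, b3, -, -⟩ := hB
  have hlim : Tendsto (fun n => ENNReal.ofReal (g n)) atTop (𝓝 0) := by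
    have := ENNReal.tendsto_ofReal h4
    simpa using this
  refine tendsto_of_tendsto_of_tendsto_of_le_of_le' tendsto_const_nhds hlim
    (Eventually.of_forall fun n => zero_le) ?_
  filter_upwards [h1, h2, h3] with n k1 k2 k3
  calc prob (Sq n) (E n) ≤ prob (Sq n) (fun m x => ∃ i ∈ I n, Q n i m x) :=
        b1 _ _ _ (Sq_meas n) k1
    _ ≤ ∑ i ∈ I n, prob (Sq n) (Q n i) := b3 _ _ _ _
    _ ≤ ∑ i ∈ I n, ENNReal.ofReal (f n) := Finset.sum_le_sum k2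
    _ = ENNReal.ofReal (((I n).card : ℝ) * f n) := by
        rw [Finset.sum_const, nsmul_eq_mul, ENNReal.ofReal_mul (Nat.cast_nonneg _),
          ENNReal.ofReal_natCast]
    _ ≤ ENNReal.ofReal (g n) := ENNReal.ofReal_le_ofReal k3

theorem tendsto_const_div (C : ℝ) : Tendsto (fun n : ℝ => C / n) atTop (𝓝 0) :=
  tendsto_const_nhds.div_atTop tendsto_id

theorem tendsto_lam : Tendsto lam atTop atTop := by
  unfold lam
  exact Real.tendsto_sqrt_atTop.comp Real.tendsto_log_atTop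

theorem lam_sq {n : ℝ} (hn : 1 ≤ n) : lam n ^ 2 = Real.log n := by
  unfold lam
  exact Real.sq_sqrt (Real.log_nonneg hn)

theorem lam_ge (e : ℝ) (he : 0 < e) (B : ℝ) : ∀ᶠ n in atTop, B ≤ e * lam n :=
  (tendsto_lam.const_mul_atTop he).eventually_ge_atTop B

/-- `e √(log n) ≤ √n` eventually -/
theorem lam_le_sqrt (e : ℝ) (he : 0 < e) : ∀ᶠ n in atTop, e * lam n ≤ Real.sqrt n := by
  have h := Real.isLittleO_log_id_atTop.bound (c := 1 / e ^ 2) (by positivity)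
  filter_upwards [h, eventually_ge_atTop (1 : ℝ)] with n hn h1
  have hl := Real.log_nonneg h1
  simp only [id, Real.norm_eq_abs, abs_of_nonneg hl, abs_of_nonneg (by linarith : (0:ℝ) ≤ n)] at hn
  apply Real.le_sqrt_of_sq_le
  rw [mul_pow, lam_sq h1]
  have h2 : e ^ 2 * Real.log n ≤ e ^ 2 * (1 / e ^ 2 * n) := by gcongr
  have h3 : e ^ 2 * (1 / e ^ 2 * n) = n := by field_simp
  linarith

theorem mc_facts (e : ℝ) (he : 0 < e) : ∀ᶠ n in atTop, 1 ≤ mc e n ∧ 0 < hc e n ∧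
    (mc e n : ℝ) * hc e n = Real.sqrt n ∧ e * lam n / 2 ≤ hc e n ∧ hc e n ≤ e * lam n ∧
    (mc e n : ℝ) ^ 2 ≤ 4 * n ∧ 1 ≤ n := by
  filter_upwards [lam_le_sqrt e he, lam_ge e he 1, eventually_ge_atTop (1 : ℝ)] with n h1 h2 h3
  have hpos : 0 < e * lam n := by linarith
  have hlpos : lam n ≠ 0 := by
    intro h0
    rw [h0] at hpos
    simp at hpos
  have hs : 0 < Real.sqrt n := by linarith
  have hq : 1 ≤ Real.sqrt n / (e * lam n) := (one_le_div hpos).2 h1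
  have hm : Real.sqrt n / (e * lam n) ≤ (mc e n : ℝ) := Nat.le_ceil _
  have hm2 : (mc e n : ℝ) < Real.sqrt n / (e * lam n) + 1 := Nat.ceil_lt_add_one (by positivity)
  have hm1 : (1 : ℝ) ≤ mc e n := hq.trans hm
  have hmpos : (0 : ℝ) < mc e n := by linarith
  have hle : (mc e n : ℝ) ≤ 2 * (Real.sqrt n / (e * lam n)) := by linarith
  refine ⟨by exact_mod_cast hm1, div_pos hs hmpos, ?_, ?_, ?_, ?_, h3⟩
  · unfold hc
    field_simp
  · unfold hc
    rw [le_div_iff₀ hmpos]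
    calc e * lam n / 2 * (mc e n : ℝ) ≤ e * lam n / 2 * (2 * (Real.sqrt n / (e * lam n))) := by
          gcongr
      _ = Real.sqrt n := by field_simp
  · unfold hc
    rw [div_le_iff₀ hmpos]
    calc Real.sqrt n = e * lam n * (Real.sqrt n / (e * lam n)) := by field_simp
      _ ≤ e * lam n * (mc e n : ℝ) := by gcongr
  · have h4 : Real.sqrt n / (e * lam n) ≤ Real.sqrt n := div_le_self hs.le h2
    have h5 : (mc e n : ℝ) ≤ 2 * Real.sqrt n := by linarith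
    calc (mc e n : ℝ) ^ 2 ≤ (2 * Real.sqrt n) ^ 2 := by gcongr
      _ = 4 * n := by rw [mul_pow, Real.sq_sqrt (by linarith)]; norm_num

theorem NCell_eq (h : ℝ) (c : ℕ × ℕ) :
    NCell h c = Box (c.1 * h) ((c.1 + 1) * h) (c.2 * h) ((c.2 + 1) * h) := by
  ext z
  simp [NCell, Cell, Box]

theorem NCell_meas (h : ℝ) (c : ℕ × ℕ) : MeasurableSet (NCell h c) := by
  rw [NCell_eq]; exact box_meas _ _ _ _

theorem NCell_vol {h : ℝ} (hh : 0 ≤ h) (c : ℕ × ℕ) :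
    volume (NCell h c) = ENNReal.ofReal (h ^ 2) := by
  rw [NCell_eq, box_vol (by nlinarith)]
  congr 1
  ring

theorem NCell_sub {h s : ℝ} (hh : 0 ≤ h) {M : ℕ} (hM : (M : ℝ) * h = s) {c : ℕ × ℕ}
    (h1 : c.1 < M) (h2 : c.2 < M) : NCell h c ⊆ Box 0 s 0 s := by
  rw [NCell_eq]
  rintro z ⟨z1, z2, z3, z4⟩
  have e1 : ((c.1 : ℝ) + 1) ≤ M := by exact_mod_cast h1
  have e2 : ((c.2 : ℝ) + 1) ≤ M := by exact_mod_cast h2
  have e3 : (0 : ℝ) ≤ c.1 := Nat.cast_nonneg _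
  have e4 : (0 : ℝ) ≤ c.2 := Nat.cast_nonneg _
  refine ⟨?_, ?_, ?_, ?_⟩
  · exact (mul_nonneg e3 hh).trans z1
  · exact z2.trans ((mul_le_mul_of_nonneg_right e1 hh).trans_eq hM)
  · exact (mul_nonneg e4 hh).trans z3
  · exact z4.trans ((mul_le_mul_of_nonneg_right e2 hh).trans_eq hM)

/-- one-dimensional cell location -/
theorem exists_cell_one {h t s : ℝ} (hh : 0 < h) {M : ℕ} (hM1 : 1 ≤ M) (hM : (M : ℝ) * h = s)
    (h0 : 0 ≤ t) (h1 : t ≤ s) : ∃ c : ℕ, c < M ∧ c * h ≤ t ∧ t ≤ (c + 1) * h := by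
  by_cases hc : ⌊t / h⌋₊ < M
  · refine ⟨⌊t / h⌋₊, hc, ?_, ?_⟩
    · have := Nat.floor_le (div_nonneg h0 hh.le)
      rwa [le_div_iff₀ hh] at this
    · have := (Nat.lt_floor_add_one (t / h)).le
      rwa [div_le_iff₀ hh] at this
  · refine ⟨M - 1, by omega, ?_, ?_⟩
    · push Not at hc
      have h2 : (M : ℝ) ≤ t / h := (Nat.le_floor_iff (div_nonneg h0 hh.le)).1 hc
      rw [le_div_iff₀ hh] at h2
      have h3 : ((M - 1 : ℕ) : ℝ) ≤ M := by exact_mod_cast Nat.sub_le _ _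
      exact (mul_le_mul_of_nonneg_right h3 hh.le).trans h2
    · have h3 : (((M - 1 : ℕ) : ℝ) + 1) = M := by
        have : M - 1 + 1 = M := by omega
        exact_mod_cast this
      rw [h3, hM]
      exact h1

theorem exists_cell {h s : ℝ} (hh : 0 < h) {M : ℕ} (hM1 : 1 ≤ M) (hM : (M : ℝ) * h = s)
    {z : ℂ} (hz : z ∈ Box 0 s 0 s) : ∃ c : ℕ × ℕ, c.1 < M ∧ c.2 < M ∧ z ∈ NCell h c := by
  obtain ⟨z1, z2, z3, z4⟩ := hz
  obtain ⟨a, ha, ha1, ha2⟩ := exists_cell_one hh hM1 hM z1 z2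
  obtain ⟨b, hb, hb1, hb2⟩ := exists_cell_one hh hM1 hM z3 z4
  refine ⟨(a, b), ha, hb, ?_⟩
  rw [NCell_eq]
  exact ⟨ha1, ha2, hb1, hb2⟩

theorem NCell_dist {h : ℝ} (hh : 0 < h) {c : ℕ × ℕ} {z w : ℂ} (hz : z ∈ NCell h c)
    (hw : w ∈ NCell h c) : dist z w < 2 * h := by
  rw [NCell_eq] at hz hw
  obtain ⟨z1, z2, z3, z4⟩ := hz
  obtain ⟨w1, w2, w3, w4⟩ := hw
  rw [Complex.dist_eq_re_im]
  apply (Real.sqrt_lt' (by positivity)).2
  have h1 : (z.re - w.re) ^ 2 ≤ h ^ 2 := sq_le_sq' (by nlinarith) (by nlinarith)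
  have h2 : (z.im - w.im) ^ 2 ≤ h ^ 2 := sq_le_sq' (by nlinarith) (by nlinarith)
  nlinarith

end H98
end KN
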