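import Pool.Agent.Helper89.KN.Spec
import Pool.Agent.Helper89.KN.Base

/-! ISOM: measurability of the `Iso` events from the general statement MEASG. -/

open MeasureTheory Set Filter Topology
open scoped ENNReal

namespace KN
namespace H98

theorem infDist_two (z a b : ℂ) : Metric.infDist z {a, b} = min (dist z a) (dist z b) := by
  unfold Metric.infDist
  have h : ({a, b} : Set ℂ) = {a} ∪ {b} := rfl
  rw [h, Metric.infEDist_union, Metric.infEDist_singleton, Metric.infEDist_singleton,
    dist_edist, dist_edist]
  exact ENNReal.toReal_min (edist_ne_top _ _) (edist_ne_top _ _)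

theorem JMeas_congr {α : Type} [MeasurableSpace α] {Q Q' : α → Multiset ℂ → Prop}
    (h : ∀ a ω, Q a ω ↔ Q' a ω) (hQ : JMeas Q) : JMeas Q' := by
  have : Q = Q' := by
    funext a ω
    exact propext (h a ω)
  rwa [← this]

theorem EMeas_of_JMeas {Q : Multiset ℂ → Prop} (h : JMeas (fun (_ : Unit) ω => Q ω)) :
    EMeas Q := by
  intro m
  exact measurable_prodMk_left (x := ()) (h m)

end H98

open H98

theorem isom_thm (hM : S_MEASG) : S_ISOM := by
  refine ⟨?_, ?_, ?_, ?_⟩
  · intro k v R η δ Λ W hW
    have hid : Measurable (fun z : ℂ => Metric.infDist z R) :=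
      (Metric.continuous_infDist_pt R).measurable
    have hdv : Measurable (fun z : ℂ => dist z v) := (continuous_id.dist continuous_const).measurable
    have key : ∀ W : Set ℂ, MeasurableSet W → EMeas (fun ω => Iso k v R η δ Λ (res W ω)) := by
      intro W hW
      apply EMeas_of_JMeas
      refine JMeas_congr ?_ (hM Unit (fun _ => W)
        (fun _ z => Metric.ball z (min (dist z v) (Metric.infDist z R + η)))
        (fun _ z => δ ≤ Metric.infDist z R) (fun _ z => dist z v < Λ) (fun _ => True) (k + 1)
        ?_ ?_ ?_ ?_ ?_)
      · intro a ω
        simp only [true_and]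
        rfl
      · exact measurable_snd hW
      · have h1 : Measurable (fun p : (Unit × ℂ) × ℂ => dist p.2 p.1.2) :=
          (continuous_dist.measurable).comp (measurable_snd.prodMk (measurable_snd.comp measurable_fst))
        have h2 : Measurable (fun p : (Unit × ℂ) × ℂ =>
            min (dist p.1.2 v) (Metric.infDist p.1.2 R + η)) :=
          (hdv.comp (measurable_snd.comp measurable_fst)).min
            ((hid.comp (measurable_snd.comp measurable_fst)).add_const η)
        exact measurableSet_lt h1 h2
      · exact measurableSet_le measurable_const (hid.comp measurable_snd)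
      · exact measurableSet_lt (hdv.comp measurable_snd) measurable_const
      · exact MeasurableSet.univ
    refine ⟨key W hW, ?_⟩
    have h := key Set.univ MeasurableSet.univ
    have heq : (fun ω => Iso k v R η δ Λ (res Set.univ ω)) = Iso k v R η δ Λ := by
      funext ω
      rw [res_eq_self (fun z _ => Set.mem_univ z)]
    rwa [heq] at h
  · intro k R η δ Λ Λ' G hR hG
    have hid : Measurable (fun z : ℂ => Metric.infDist z R) :=
      (Metric.continuous_infDist_pt R).measurable
    refine JMeas_congr ?_ (hM ℂ (fun v => Metric.ball v Λ' \ R)
      (fun v z => Metric.ball z (min (dist z v) (Metric.infDist z R + η)))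
      (fun _ z => δ ≤ Metric.infDist z R) (fun v z => dist z v < Λ) (fun v => v ∈ G) (k + 1)
      ?_ ?_ ?_ ?_ ?_)
    · intro a ω
      rfl
    · have h1 : MeasurableSet {p : ℂ × ℂ | dist p.2 p.1 < Λ'} :=
        measurableSet_lt ((continuous_dist.measurable).comp (measurable_snd.prodMk measurable_fst))
          measurable_const
      exact h1.diff (measurable_snd hR)
    · have h1 : Measurable (fun p : (ℂ × ℂ) × ℂ => dist p.2 p.1.2) :=
        (continuous_dist.measurable).comp (measurable_snd.prodMk (measurable_snd.comp measurable_fst))
      have h3 : Measurable (fun p : (ℂ × ℂ) × ℂ => dist p.1.2 p.1.1) :=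
        (continuous_dist.measurable).comp
          ((measurable_snd.comp measurable_fst).prodMk (measurable_fst.comp measurable_fst))
      have h2 : Measurable (fun p : (ℂ × ℂ) × ℂ =>
          min (dist p.1.2 p.1.1) (Metric.infDist p.1.2 R + η)) :=
        h3.min ((hid.comp (measurable_snd.comp measurable_fst)).add_const η)
      exact measurableSet_lt h1 h2
    · exact measurableSet_le measurable_const (hid.comp measurable_snd)
    · exact measurableSet_lt
        ((continuous_dist.measurable).comp (measurable_snd.prodMk measurable_fst)) measurable_const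
    · exact hG
  · intro k δ Λ Λ'
    refine JMeas_congr ?_ (hM ℂ (fun v => Metric.ball v Λ')
      (fun v z => Metric.ball z (min (dist z v) (Metric.infDist z {v} + 0)))
      (fun v z => δ ≤ Metric.infDist z {v}) (fun v z => dist z v < Λ) (fun _ => True) (k + 1)
      ?_ ?_ ?_ ?_ ?_)
    · intro a ω
      simp only [true_and]
      rfl
    · exact measurableSet_lt
        ((continuous_dist.measurable).comp (measurable_snd.prodMk measurable_fst)) measurable_const
    · have h1 : Measurable (fun p : (ℂ × ℂ) × ℂ => dist p.2 p.1.2) :=
        (continuous_dist.measurable).comp (measurable_snd.prodMk (measurable_snd.comp measurable_fst))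
      have h3 : Measurable (fun p : (ℂ × ℂ) × ℂ => dist p.1.2 p.1.1) :=
        (continuous_dist.measurable).comp
          ((measurable_snd.comp measurable_fst).prodMk (measurable_fst.comp measurable_fst))
      simp only [Metric.infDist_singleton, add_zero, min_self]
      exact measurableSet_lt h1 h3
    · simp only [Metric.infDist_singleton]
      exact measurableSet_le measurable_const
        ((continuous_dist.measurable).comp (measurable_snd.prodMk measurable_fst))
    · exact measurableSet_lt
        ((continuous_dist.measurable).comp (measurable_snd.prodMk measurable_fst)) measurable_const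
    · exact MeasurableSet.univ
  · intro k δ Λ Λ' G hG
    refine JMeas_congr ?_ (hM (ℂ × ℂ)
      (fun p => Metric.ball p.1 Λ' \ Metric.closedBall p.1 (dist p.2 p.1))
      (fun p z => Metric.ball z (min (dist z p.1) (Metric.infDist z {p.1, p.2} + 0)))
      (fun p z => δ ≤ Metric.infDist z {p.1, p.2}) (fun p z => dist z p.1 < Λ) (fun p => p ∈ G)
      (k + 1) ?_ ?_ ?_ ?_ ?_)
    · intro a ω
      rfl
    · have h3 : Measurable (fun p : (ℂ × ℂ) × ℂ => dist p.2 p.1.1) :=
        (continuous_dist.measurable).comp
          (measurable_snd.prodMk (measurable_fst.comp measurable_fst))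
      have h4 : Measurable (fun p : (ℂ × ℂ) × ℂ => dist p.1.2 p.1.1) :=
        (continuous_dist.measurable).comp
          ((measurable_snd.comp measurable_fst).prodMk (measurable_fst.comp measurable_fst))
      have h1 : MeasurableSet {p : (ℂ × ℂ) × ℂ | dist p.2 p.1.1 < Λ'} :=
        measurableSet_lt h3 measurable_const
      have h2 : MeasurableSet {p : (ℂ × ℂ) × ℂ | dist p.2 p.1.1 ≤ dist p.1.2 p.1.1} :=
        measurableSet_le h3 h4
      exact h1.diff h2
    · have h1 : Measurable (fun p : ((ℂ × ℂ) × ℂ) × ℂ => dist p.2 p.1.2) :=
        (continuous_dist.measurable).comp (measurable_snd.prodMk (measurable_snd.comp measurable_fst))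
      have h2 : Measurable (fun p : ((ℂ × ℂ) × ℂ) × ℂ => dist p.1.2 p.1.1.1) :=
        (continuous_dist.measurable).comp ((measurable_snd.comp measurable_fst).prodMk
          (measurable_fst.comp (measurable_fst.comp measurable_fst)))
      have h3 : Measurable (fun p : ((ℂ × ℂ) × ℂ) × ℂ => dist p.1.2 p.1.1.2) :=
        (continuous_dist.measurable).comp ((measurable_snd.comp measurable_fst).prodMk
          (measurable_snd.comp (measurable_fst.comp measurable_fst)))
      simp only [infDist_two, add_zero]
      exact measurableSet_lt h1 (h2.min (h2.min h3))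
    · have h2 : Measurable (fun p : (ℂ × ℂ) × ℂ => dist p.2 p.1.1) :=
        (continuous_dist.measurable).comp
          (measurable_snd.prodMk (measurable_fst.comp measurable_fst))
      have h3 : Measurable (fun p : (ℂ × ℂ) × ℂ => dist p.2 p.1.2) :=
        (continuous_dist.measurable).comp
          (measurable_snd.prodMk (measurable_snd.comp measurable_fst))
      simp only [infDist_two]
      exact measurableSet_le measurable_const (h2.min h3)
    · have h2 : Measurable (fun p : (ℂ × ℂ) × ℂ => dist p.2 p.1.1) :=
        (continuous_dist.measurable).comp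
          (measurable_snd.prodMk (measurable_fst.comp measurable_fst))
      exact measurableSet_lt h2 measurable_const
    · exact hG

end KN
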