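import Pool.Agent.Helper89.KN.Spec
import Pool.Agent.Helper89.KN.Base

/-! MAP and MAPE: mapping of a Poisson process. -/

open MeasureTheory Set Filter Topology
open scoped ENNReal

namespace KN

theorem map_thm : S_MAP := by
  intro S S' T hT hS Q hQ
  have hvol : volume S = volume S' := by
    have := hT.measure_preimage (s := Set.univ) MeasurableSet.univ.nullMeasurableSet
    simpa using this
  unfold PP prob
  rw [hvol]
  refine tsum_congr fun m => ?_
  congr 1
  have hp := measurePreserving_pi (fun _ : Fin m => volume.restrict S)
    (fun _ : Fin m => volume.restrict S') (f := fun _ => T) (fun _ => hT)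
  rw [← hp.measure_preimage (hQ m).nullMeasurableSet]
  congr 1
  ext x
  simp only [mem_setOf_eq, mem_preimage]
  rw [conf_map]

theorem mape_thm : S_MAPE := by
  intro S T hT Q
  have hpre : T ⁻¹' (T '' S) = S := T.injective.preimage_image S
  have hT' : MeasurePreserving T (volume.restrict S) (volume.restrict (T '' S)) := by
    refine ⟨T.measurable, ?_⟩
    have h := MeasurableEquiv.restrict_map T volume (T '' S)
    rw [hpre, hT.map_eq] at h
    exact h.symm
  have hvol : volume S = volume (T '' S) := by
    have := hT'.measure_preimage (s := Set.univ) MeasurableSet.univ.nullMeasurableSet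
    simpa using this
  unfold PP prob
  rw [hvol]
  refine tsum_congr fun m => ?_
  congr 1
  have hp := measurePreserving_pi (fun _ : Fin m => volume.restrict S)
    (fun _ : Fin m => volume.restrict (T '' S)) (f := fun _ => T) (fun _ => hT')
  have hp2 : MeasurePreserving (MeasurableEquiv.piCongrRight (fun _ : Fin m => T))
    (Measure.pi fun _ : Fin m => volume.restrict S)
    (Measure.pi fun _ : Fin m => volume.restrict (T '' S)) := hp
  rw [← hp2.measure_preimage_equiv]
  congr 1
  ext x
  simp only [mem_setOf_eq, mem_preimage]
  rw [conf_map]
  rfl

end KN
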