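import Pool.Agent.Helper98.KN.MAP

/-! SYM: reduction to the interior and the left side of the square. -/

open MeasureTheory Set Filter Topology
open scoped ENNReal

namespace KN

/-- the map `z ↦ a + L z` for a linear isometry `L` -/
noncomputable def affE (L : ℂ ≃ₗᵢ[ℝ] ℂ) (a : ℂ) : ℂ ≃ᵐ ℂ :=
  L.toMeasurableEquiv.trans (MeasurableEquiv.addLeft a)

theorem affE_apply (L : ℂ ≃ₗᵢ[ℝ] ℂ) (a z : ℂ) : affE L a z = a + L z := rfl

theorem affE_mp (L : ℂ ≃ₗᵢ[ℝ] ℂ) (a : ℂ) : MeasurePreserving (affE L a) volume volume :=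
  L.measurePreserving.trans (measurePreserving_add_left volume a)

theorem affE_isom (L : ℂ ≃ₗᵢ[ℝ] ℂ) (a : ℂ) : Isometry (affE L a) := by
  refine Isometry.of_dist_eq fun z w => ?_
  rw [affE_apply, affE_apply, dist_add_left, L.dist_map]

/-- multiplication by `i` -/
noncomputable def mulI : ℂ ≃ₗᵢ[ℝ] ℂ := rotation (Circle.exp (Real.pi / 2))

theorem mulI_apply (z : ℂ) : mulI z = Complex.I * z := by
  unfold mulI
  rw [rotation_apply]
  congr 1
  rw [Circle.coe_exp]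
  have : ((Real.pi / 2 : ℝ) : ℂ) * Complex.I = (Real.pi : ℂ) / 2 * Complex.I := by push_cast; ring
  rw [this, Complex.exp_pi_div_two_mul_I]

theorem sym_equiv (n : ℝ) (i : Fin 4) :
    ∃ e : ℂ ≃ᵐ ℂ, (∀ z, e z = sym n i z) ∧ MeasurePreserving e volume volume ∧ Isometry e := by
  fin_cases i
  · exact ⟨MeasurableEquiv.refl ℂ, fun z => rfl, MeasurePreserving.id _, isometry_id⟩
  · refine ⟨affE (Complex.conjLIE.trans (LinearIsometryEquiv.neg ℝ)) (Real.sqrt n : ℂ), fun z => ?_,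
      affE_mp _ _, affE_isom _ _⟩
    rw [affE_apply]
    apply Complex.ext <;> simp [sym]
    ring
  · refine ⟨affE (Complex.conjLIE.trans mulI) 0, fun z => ?_, affE_mp _ _, affE_isom _ _⟩
    rw [affE_apply]
    apply Complex.ext <;> simp [sym, mulI_apply]
  · refine ⟨affE mulI (Real.sqrt n : ℂ), fun z => ?_, affE_mp _ _, affE_isom _ _⟩
    rw [affE_apply]
    apply Complex.ext <;> simp [sym, mulI_apply]
    ring

theorem sym_image (n : ℝ) (i : Fin 4) : sym n i '' Sq n = Sq n := by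
  have h0 := Real.sqrt_nonneg n
  fin_cases i
  · ext z
    simp [sym]
  · ext z
    constructor
    · rintro ⟨w, hw, rfl⟩
      simp only [Sq, SqL, mem_ofPred_eq, sym] at hw ⊢
      refine ⟨by linarith [hw.2.1], by linarith [hw.1], hw.2.2.1, hw.2.2.2⟩
    · intro hw
      refine ⟨⟨Real.sqrt n - z.re, z.im⟩, ?_, ?_⟩
      · simp only [Sq, SqL, mem_ofPred_eq] at hw ⊢
        refine ⟨by linarith [hw.2.1], by linarith [hw.1], hw.2.2.1, hw.2.2.2⟩
      · apply Complex.ext <;> simp [sym]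
  · ext z
    constructor
    · rintro ⟨w, hw, rfl⟩
      simp only [Sq, SqL, mem_ofPred_eq, sym] at hw ⊢
      exact ⟨hw.2.2.1, hw.2.2.2, hw.1, hw.2.1⟩
    · intro hw
      refine ⟨⟨z.im, z.re⟩, ?_, ?_⟩
      · simp only [Sq, SqL, mem_ofPred_eq] at hw ⊢
        exact ⟨hw.2.2.1, hw.2.2.2, hw.1, hw.2.1⟩
      · apply Complex.ext <;> simp [sym]
  · ext z
    constructor
    · rintro ⟨w, hw, rfl⟩
      simp only [Sq, SqL, mem_ofPred_eq, sym] at hw ⊢
      exact ⟨by linarith [hw.2.2.2], by linarith [hw.2.2.1], hw.1, hw.2.1⟩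
    · intro hw
      refine ⟨⟨z.im, Real.sqrt n - z.re⟩, ?_, ?_⟩
      · simp only [Sq, SqL, mem_ofPred_eq] at hw ⊢
        exact ⟨hw.2.2.1, hw.2.2.2, by linarith [hw.2.1], by linarith [hw.1]⟩
      · apply Complex.ext <;> simp [sym]

/-- transfer of probabilities by a symmetry -/
theorem PP_sym (n : ℝ) (i : Fin 4) (Q : Multiset ℂ → Prop) :
    PP (Sq n) (fun ω => Q (ω.map (sym n i))) = PP (Sq n) Q := by
  obtain ⟨e, he, hmp, -⟩ := sym_equiv n i
  have hfun : (e : ℂ → ℂ) = sym n i := funext he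
  have h := mape_thm (Sq n) e hmp Q
  rw [hfun, sym_image] at h
  exact h

theorem sym_isom (n : ℝ) (i : Fin 4) : Isometry (sym n i) := by
  obtain ⟨e, he, -, hi⟩ := sym_equiv n i
  have hfun : (e : ℂ → ℂ) = sym n i := funext he
  rw [← hfun]
  exact hi

theorem cnt_map_isom {T : ℂ → ℂ} (hT : Isometry T) (p : ℂ) (s : ℝ) (ω : Multiset ℂ) :
    cnt (Metric.ball (T p) s) (ω.map T) = cnt (Metric.ball p s) ω := by
  rw [cnt_map, hT.preimage_ball]

theorem InI_map {T : ℂ → ℂ} (hT : Isometry T) {k : ℕ} {r D dm : ℝ} {A P : Multiset ℂ}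
    (h : InI k r D dm A P) : InI k r D dm (A.map T) (P.map T) := by
  obtain ⟨h1, h2, a₀, ha₀, p₀, hp₀, h3⟩ := h
  refine ⟨?_, ?_, T a₀, Multiset.mem_map_of_mem _ ha₀, T p₀, Multiset.mem_map_of_mem _ hp₀, ?_⟩
  · intro a' ha' p' hp'
    obtain ⟨a, ha, rfl⟩ := Multiset.mem_map.1 ha'
    obtain ⟨p, hp, rfl⟩ := Multiset.mem_map.1 hp'
    rw [← Multiset.map_add, hT.dist_eq, cnt_map_isom hT]
    exact h1 a ha p hp
  · intro a' ha' b' hb'
    obtain ⟨a, ha, rfl⟩ := Multiset.mem_map.1 ha'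
    obtain ⟨b, hb, rfl⟩ := Multiset.mem_map.1 hb'
    rw [hT.dist_eq]
    exact h2 a ha b hb
  · rw [hT.dist_eq]
    exact h3

theorem OutI_map {T : ℂ → ℂ} (hT : Isometry T) {k : ℕ} {r D dm : ℝ} {B P : Multiset ℂ}
    (h : OutI k r D dm B P) : OutI k r D dm (B.map T) (P.map T) := by
  obtain ⟨h0, h1, h2, h3⟩ := h
  refine ⟨by simpa using h0, ?_, ?_, ?_⟩
  · intro a' ha' p' hp'
    obtain ⟨a, ha, rfl⟩ := Multiset.mem_map.1 ha'
    obtain ⟨p, hp, rfl⟩ := Multiset.mem_map.1 hp'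
    rw [← Multiset.map_add, hT.dist_eq, cnt_map_isom hT]
    exact h1 a ha p hp
  · intro a' ha' b' hb'
    obtain ⟨a, ha, rfl⟩ := Multiset.mem_map.1 ha'
    obtain ⟨b, hb, rfl⟩ := Multiset.mem_map.1 hb'
    rw [hT.dist_eq]
    exact h2 a ha b hb
  · intro b' hb'
    obtain ⟨b, hb, rfl⟩ := Multiset.mem_map.1 hb'
    obtain ⟨p, hp, h4⟩ := h3 b hb
    refine ⟨T p, Multiset.mem_map_of_mem _ hp, ?_⟩
    rw [hT.dist_eq]
    exact h4

theorem dist_sq_re_im (z w : ℂ) : dist z w ^ 2 = (z.re - w.re) ^ 2 + (z.im - w.im) ^ 2 := by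
  rw [Complex.dist_eq_re_im, Real.sq_sqrt (by positivity)]

theorem abs_re_sub_le_dist (z w : ℂ) : |z.re - w.re| ≤ dist z w := by
  rw [dist_eq_norm, ← Complex.sub_re]
  exact Complex.abs_re_le_norm _

theorem abs_im_sub_le_dist (z w : ℂ) : |z.im - w.im| ≤ dist z w := by
  rw [dist_eq_norm, ← Complex.sub_im]
  exact Complex.abs_im_le_norm _

/-- a point near a side but far from the corners: the other coordinate is large -/
theorem coord_ge {x y Λ₀ d : ℝ} (hx0 : 0 ≤ x) (hx : x < Λ₀) (hy : 0 ≤ y) (hd : 2 * Λ₀ ≤ d)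
    (h : d ^ 2 = x ^ 2 + y ^ 2) : Λ₀ ≤ y := by
  have hL : 0 < Λ₀ := lt_of_le_of_lt hx0 hx
  by_contra hlt
  push Not at hlt
  have h1 : x ^ 2 < Λ₀ ^ 2 := by nlinarith
  have h2 : y ^ 2 < Λ₀ ^ 2 := by nlinarith
  have h3 : (2 * Λ₀) ^ 2 ≤ d ^ 2 := by nlinarith
  nlinarith

theorem side_cases {n Λ₀ Λ₁ : ℝ} (hΛ : 0 < Λ₀) (h2 : 2 * Λ₀ ≤ Λ₁) {v : ℂ} (hv : v ∈ Sq n)
    (hc : ∀ z ∈ corners n, Λ₁ ≤ dist v z) : v ∈ Inn n Λ₀ ∨ ∃ i : Fin 4, sym n i v ∈ Lef n Λ₀ := by
  obtain ⟨hr0, hr1, hi0, hi1⟩ := hv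
  have c1 : Λ₁ ≤ dist v 0 := hc _ (by simp [corners])
  have c2 : Λ₁ ≤ dist v ⟨Real.sqrt n, 0⟩ := hc _ (by simp [corners])
  have c3 : Λ₁ ≤ dist v ⟨0, Real.sqrt n⟩ := hc _ (by simp [corners])
  have c4 : Λ₁ ≤ dist v ⟨Real.sqrt n, Real.sqrt n⟩ := hc _ (by simp [corners])
  have e1 := dist_sq_re_im v 0
  have e2 := dist_sq_re_im v ⟨Real.sqrt n, 0⟩
  have e3 := dist_sq_re_im v ⟨0, Real.sqrt n⟩
  have e4 := dist_sq_re_im v ⟨Real.sqrt n, Real.sqrt n⟩
  simp only [Complex.zero_re, Complex.zero_im, sub_zero] at e1 e2 e3 e4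
  by_cases hA : v.re < Λ₀
  · right
    refine ⟨0, hr0, hA, ?_, ?_⟩
    · exact coord_ge hr0 hA hi0 (h2.trans c1) e1
    · have := coord_ge hr0 hA (y := Real.sqrt n - v.im) (by linarith) (h2.trans c3)
        (by rw [e3]; ring)
      change v.im ≤ _
      linarith
  by_cases hB : Real.sqrt n - Λ₀ < v.re
  · right
    refine ⟨1, ?_, ?_, ?_, ?_⟩
    · change 0 ≤ Real.sqrt n - v.re
      linarith
    · change Real.sqrt n - v.re < Λ₀
      linarith
    · change Λ₀ ≤ v.im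
      exact coord_ge (x := Real.sqrt n - v.re) (by linarith) (by linarith) hi0 (h2.trans c2)
        (by rw [e2]; ring)
    · have := coord_ge (x := Real.sqrt n - v.re) (Λ₀ := Λ₀) (by linarith) (by linarith)
        (y := Real.sqrt n - v.im) (by linarith) (h2.trans c4) (by rw [e4]; ring)
      change v.im ≤ _
      linarith
  by_cases hC : v.im < Λ₀
  · right
    refine ⟨2, hi0, hC, ?_, ?_⟩
    · change Λ₀ ≤ v.re
      exact coord_ge hi0 hC hr0 (h2.trans c1) (by rw [e1]; ring)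
    · have := coord_ge hi0 hC (y := Real.sqrt n - v.re) (by linarith) (h2.trans c2)
        (by rw [e2]; ring)
      change v.re ≤ _
      linarith
  by_cases hD : Real.sqrt n - Λ₀ < v.im
  · right
    refine ⟨3, ?_, ?_, ?_, ?_⟩
    · change 0 ≤ Real.sqrt n - v.im
      linarith
    · change Real.sqrt n - v.im < Λ₀
      linarith
    · change Λ₀ ≤ v.re
      exact coord_ge (x := Real.sqrt n - v.im) (by linarith) (by linarith) hr0 (h2.trans c3)
        (by rw [e3]; ring)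
    · have := coord_ge (x := Real.sqrt n - v.im) (Λ₀ := Λ₀) (by linarith) (by linarith)
        (y := Real.sqrt n - v.re) (by linarith) (h2.trans c4) (by rw [e4]; ring)
      change v.re ≤ _
      linarith
  left
  intro z hz
  rw [Metric.mem_closedBall] at hz
  have h3 := (abs_re_sub_le_dist z v).trans hz
  have h4 := (abs_im_sub_le_dist z v).trans hz
  rw [abs_le] at h3 h4
  push Not at hA hB hC hD
  exact ⟨by linarith [h3.1], by linarith [h3.2], by linarith [h4.1], by linarith [h4.2]⟩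

theorem Sq_meas (n : ℝ) : MeasurableSet (Sq n) := by
  have : Sq n = {z : ℂ | 0 ≤ z.re ∧ z.re ≤ Real.sqrt n ∧ 0 ≤ z.im ∧ z.im ≤ Real.sqrt n} := rfl
  rw [this]
  exact (measurableSet_le measurable_const Complex.measurable_re).inter
    ((measurableSet_le Complex.measurable_re measurable_const).inter
    ((measurableSet_le measurable_const Complex.measurable_im).inter
      (measurableSet_le Complex.measurable_im measurable_const)))

/-- the union bound used for SYM -/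
theorem sym_union (hB : S_BASIC) (n : ℝ) (Q Q₁ Q₂ : Multiset ℂ → Prop)
    (h : ∀ ω : Multiset ℂ, (∀ z ∈ ω, z ∈ Sq n) → Q ω →
      Q₁ ω ∨ ∃ i ∈ (Finset.univ : Finset (Fin 4)), Q₂ (ω.map (sym n i))) :
    PP (Sq n) Q ≤ PP (Sq n) Q₁ + 4 * PP (Sq n) Q₂ := by
  obtain ⟨b1, b2, b3, -, -⟩ := hB
  calc PP (Sq n) Q ≤ prob (Sq n) (fun m x => Q₁ (conf x) ∨
        ∃ i ∈ (Finset.univ : Finset (Fin 4)), Q₂ ((conf x).map (sym n i))) := by
        refine b1 _ _ _ (Sq_meas n) ?_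
        intro m x hx hQ
        refine h _ ?_ hQ
        intro z hz
        obtain ⟨i, rfl⟩ := mem_conf.1 hz
        exact hx i
    _ ≤ PP (Sq n) Q₁ + prob (Sq n) (fun m x =>
        ∃ i ∈ (Finset.univ : Finset (Fin 4)), Q₂ ((conf x).map (sym n i))) := b2 _ _ _
    _ ≤ PP (Sq n) Q₁ + ∑ i ∈ (Finset.univ : Finset (Fin 4)), PP (Sq n) Q₂ := by
        gcongr
        refine (b3 (Sq n) (Fin 4) Finset.univ (fun i _ x => Q₂ ((conf x).map (sym n i)))).trans ?_
        refine Finset.sum_le_sum fun i _ => ?_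
        exact (PP_sym n i Q₂).le
    _ = PP (Sq n) Q₁ + 4 * PP (Sq n) Q₂ := by simp

theorem sym_thm (hB : S_BASIC) : S_SYM := by
  intro k n r D dm Λ₀ Λ₁ hn hΛ h2
  constructor
  · refine sym_union hB n _ _ _ ?_
    rintro ω hω ⟨A, P, rfl, hcard, hI, hfar⟩
    have hne : A ≠ 0 := by
      rintro rfl
      simp at hcard
    obtain ⟨v, hv⟩ := Multiset.exists_mem_of_ne_zero hne
    have hvS : v ∈ Sq n := hω v (Multiset.mem_add.2 (Or.inl hv))
    rcases side_cases hΛ h2 hvS (hfar v hv) with h | ⟨i, hi⟩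
    · left
      exact ⟨A, P, rfl, hcard, hI, v, hv, h⟩
    · right
      refine ⟨i, Finset.mem_univ _, A.map (sym n i), P.map (sym n i), by rw [Multiset.map_add],
        by simpa using hcard, InI_map (sym_isom n i) hI, sym n i v, Multiset.mem_map_of_mem _ hv, hi⟩
  · refine sym_union hB n _ _ _ ?_
    rintro ω hω ⟨B, P, rfl, hI, hfar⟩
    have hne : B ≠ 0 := hI.1
    obtain ⟨v, hv⟩ := Multiset.exists_mem_of_ne_zero hne
    have hvS : v ∈ Sq n := hω v (Multiset.mem_add.2 (Or.inl hv))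
    rcases side_cases hΛ h2 hvS (hfar v hv) with h | ⟨i, hi⟩
    · left
      exact ⟨B, P, rfl, hI, v, hv, h⟩
    · right
      refine ⟨i, Finset.mem_univ _, B.map (sym n i), P.map (sym n i), by rw [Multiset.map_add],
        OutI_map (sym_isom n i) hI, sym n i v, Multiset.mem_map_of_mem _ hv, hi⟩

end KN
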